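import Pool.Agent.Helper937.Dom3

set_option autoImplicit false

open Cardinal Pool.Agent.Helper937.Dom

namespace Pool.Agent.Results.MP_af0a18_lc.NoFromUltrafilterYesAtOmegaOne

/-- There is a uniform countably complete ultrafilter on X with a base of fewer than 2^|X| sets.
(Known to be consistent relative to a supercompact cardinal, with X a measurable cardinal.) -/
def SmallBase (X : Type) : Prop :=
  ∃ U : Ultrafilter X, (∀ s ∈ U, #s = #X) ∧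
    (∀ s : ℕ → Set X, (∀ n, s n ∈ U) → (⋂ n, s n) ∈ U) ∧
    ∃ ℬ : Set (Set X), #ℬ < 2 ^ #X ∧ (∀ B ∈ ℬ, B ∈ U) ∧ ∀ s ∈ U, ∃ B ∈ ℬ, B ⊆ s

/-- The cofinality of the functions from ω₁ to ω₁, ordered everywhere, is at least κ. -/
def CofGe (κ : Cardinal.{0}) : Prop :=
  ∀ 𝓕 : Set ((ℵ_ 1).ord.ToType → (ℵ_ 1).ord.ToType), #𝓕 < κ →
    ∃ f : (ℵ_ 1).ord.ToType → (ℵ_ 1).ord.ToType, ∀ F ∈ 𝓕, ∃ α, F α ≤ f α

/-- Part 1 (every ν with ν^ω = ν): D(ν, 2^ν) holds, and E(ν, 2^ν) fails if ν has a uniform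
countably complete ultrafilter with a base of fewer than 2^ν sets; so D does not imply E there.
Part 2 (ν = ω₁): (a) if 2^ℵ₀ ≤ ℵ₂, or 2^ℵ₀ < ℵ_ω and 2^ℵ₀ < 2^ℵ₁, then E(ω₁, 2^ℵ₁) holds and D and E are
equivalent for every κ; (b) the equivalence for every κ also holds if the dominating number 𝔡 is
at most ℵ₂; (c) if 𝔡 ≤ ℵ_n then D and E are equivalent for every κ > ℵ_n; (d) if 𝔡 = ℵ_n then the
equivalence for every κ is the same as the single statement E(ω₁, 𝔡); (e) E(ω₁, κ) holds for every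
κ up to the cofinality of ω₁^ω₁. -/
theorem result :
    (∀ X : Type, ℵ₀ ≤ #X → #X ^ ℵ₀ = #X →
      D X (2 ^ #X) ∧ (SmallBase X → ¬ E X (2 ^ #X))) ∧
    (∀ X : Type, #X = ℵ_ 1 →
      (((2 : Cardinal.{0}) ^ ℵ₀ ≤ ℵ_ 2 ∨
          ((2 : Cardinal.{0}) ^ ℵ₀ < ℵ_ Ordinal.omega0 ∧ (2 : Cardinal.{0}) ^ ℵ₀ < 2 ^ ℵ_ 1)) →
        E X (2 ^ ℵ_ 1) ∧ ∀ κ, (D X κ ↔ E X κ)) ∧
      (DomLe (ℵ_ 2) → ∀ κ, (D X κ ↔ E X κ)) ∧
      (∀ n : ℕ, DomLe (ℵ_ n) → ∀ κ, ℵ_ n < κ → (D X κ ↔ E X κ)) ∧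
      (∀ n : ℕ, DomLe (ℵ_ n) → (∀ μ, μ < ℵ_ n → ¬ DomLe μ) →
        ((∀ κ, (D X κ ↔ E X κ)) ↔ E X (ℵ_ n))) ∧
      (∀ κ, CofGe κ → E X κ)) := by
  refine ⟨?_, ?_⟩
  · intro X hinf hX
    refine ⟨?_, ?_⟩
    · obtain ⟨𝒢, h1, h2⟩ := ek X hinf hX
      exact D_pow X hinf hX 𝒢 h1 h2
    · rintro ⟨U, h1, h2, ℬ, h3, h4, h5⟩
      exact not_E_of_ultra X hinf U h1 h2 ℬ h3 h4 h5
  · intro X hX
    obtain ⟨inst, h⟩ := exists_om1 X hX
    refine ⟨?_, ?_, ?_, ?_, ?_⟩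
    · intro hc
      have hE := E_pow X h hX hc
      refine ⟨hE, fun κ => ⟨fun hD => ?_, D_of_E X κ⟩⟩
      rcases le_or_gt κ (2 ^ ℵ_ 1) with hκ | hκ
      · exact E_mono X κ _ hκ hE
      · exact absurd hD (not_D_big X hX κ hκ)
    · intro hd κ
      refine ⟨fun hD => ?_, D_of_E X κ⟩
      rcases le_or_gt κ (ℵ_ 2) with hκ | hκ
      · exact E_small X h hX κ hκ
      · have h2 : ((2 : ℕ) : Ordinal.{0}) = 2 := by norm_num
        have h3 := iff_above X hX 2 (by rw [h2]; exact hd) κ (by rw [h2]; exact hκ)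
        exact h3.1 hD
    · intro n hd κ hκ
      exact iff_above X hX n hd κ hκ
    · intro n hd hmin
      refine ⟨fun hall => ?_, fun hE κ => ⟨fun hD => ?_, D_of_E X κ⟩⟩
      · rw [← hall]
        rcases le_or_gt (ℵ_ n) (ℵ_ 2) with h2 | h2
        · exact D_of_E X _ (E_small X h hX _ h2)
        · refine D_of_lt_d X hX _ (lt_of_le_of_lt ?_ h2) hmin
          rw [Cardinal.aleph_le_aleph]
          norm_num
      · rcases le_or_gt κ (ℵ_ n) with hκ | hκ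
        · exact E_mono X κ _ hκ hE
        · exact (iff_above X hX n hd κ hκ).1 hD
    · intro κ hκ
      exact E_cof' X hX κ hκ

end Pool.Agent.Results.MP_af0a18_lc.NoFromUltrafilterYesAtOmegaOne
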